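import Pool.Agent.helper72.DM.ZZ
import Pool.Agent.helper23.WD.ZN

/-! # Density hypothesis in the mean: upper bound for the number of zeros -/

set_option autoImplicit false

open Complex Metric MeasureTheory

namespace Pool.Agent.helper84.DM

theorem ZC_biUnion {ι α : Type*} [DecidableEq α] (s : Finset ι) (t : ι → Finset α) (f : α → ℝ)
    (hf : ∀ a, 0 ≤ f a) : ∑ a ∈ s.biUnion t, f a ≤ ∑ i ∈ s, ∑ a ∈ t i, f a := by
  classical
  induction s using Finset.induction_on with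
  | empty => simp
  | insert i s hi ih =>
    rw [Finset.biUnion_insert, Finset.sum_insert hi]
    have h := Finset.sum_union_inter (s₁ := t i) (s₂ := s.biUnion t) (f := f)
    have h2 : 0 ≤ ∑ a ∈ t i ∩ s.biUnion t, f a := Finset.sum_nonneg fun a _ => hf a
    linarith

/-- zeros to the right of the critical line -/
theorem ZC_right : ∃ C : ℝ, 0 < C ∧ ∀ t H : ℝ, 2 ≤ t → 1 ≤ H → H ≤ t → ∀ S : Finset ℂ,
    (∀ ρ ∈ S, riemannZeta ρ = 0 ∧ 1 / 2 ≤ ρ.re ∧ t < ρ.im ∧ ρ.im ≤ t + H) →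
      ∑ ρ ∈ S, (mult ρ : ℝ) ≤ C * H * Real.log t := by
  classical
  obtain ⟨C, hC, hw⟩ := Pool.Agent.helper33.WD.zeros_window
  refine ⟨6 * C, by positivity, fun t H ht hH hHt S hS => ?_⟩
  set N : ℕ := ⌈H⌉₊ with hN
  have hNH : (N : ℝ) ≤ 2 * H := by
    have := Nat.ceil_lt_add_one (by linarith : (0 : ℝ) ≤ H)
    linarith
  have hcov : ∀ ρ ∈ S, ∃ k ∈ Finset.range N, t + k ≤ ρ.im ∧ ρ.im ≤ t + k + 1 := by
    intro ρ hρ
    obtain ⟨-, -, h1, h2⟩ := hS ρ hρ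
    refine ⟨⌈ρ.im - t⌉₊ - 1, ?_, ?_⟩
    · rw [Finset.mem_range]
      have h3 : ⌈ρ.im - t⌉₊ ≤ N := Nat.ceil_le_ceil (by linarith)
      have h4 : 0 < ⌈ρ.im - t⌉₊ := Nat.ceil_pos.2 (by linarith)
      omega
    · have h4 : 0 < ⌈ρ.im - t⌉₊ := Nat.ceil_pos.2 (by linarith)
      have h5 : ((⌈ρ.im - t⌉₊ - 1 : ℕ) : ℝ) = (⌈ρ.im - t⌉₊ : ℝ) - 1 := by
        rw [Nat.cast_sub (by omega)]; simp
      rw [h5]
      have h6 := Nat.ceil_lt_add_one (by linarith : (0 : ℝ) ≤ ρ.im - t)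
      have h7 := Nat.le_ceil (ρ.im - t)
      constructor <;> linarith
  have hlog : ∀ k ∈ Finset.range N, Real.log (t + k + 3) ≤ 3 * Real.log t := by
    intro k hk
    rw [Finset.mem_range] at hk
    have h1 : (k : ℝ) + 1 ≤ N := by exact_mod_cast hk
    have h2 : (N : ℝ) < H + 1 := Nat.ceil_lt_add_one (by linarith : (0 : ℝ) ≤ H)
    have h3 : t + k + 3 ≤ t ^ 3 := by nlinarith [mul_pos (by linarith : (0:ℝ) < t) (by linarith : (0:ℝ) < t)]
    calc Real.log (t + k + 3) ≤ Real.log (t ^ 3) := Real.log_le_log (by positivity) h3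
      _ = 3 * Real.log t := by rw [Real.log_pow]; norm_num
  have hlt : 0 < Real.log t := Real.log_pos (by linarith)
  have hsub : S ⊆ (Finset.range N).biUnion
      (fun k => S.filter (fun ρ => t + k ≤ ρ.im ∧ ρ.im ≤ t + k + 1)) := by
    intro ρ hρ
    obtain ⟨k, hk, h1⟩ := hcov ρ hρ
    rw [Finset.mem_biUnion]
    exact ⟨k, hk, Finset.mem_filter.2 ⟨hρ, h1⟩⟩
  calc ∑ ρ ∈ S, (mult ρ : ℝ)
      ≤ ∑ ρ ∈ (Finset.range N).biUnion
          (fun k => S.filter (fun ρ => t + k ≤ ρ.im ∧ ρ.im ≤ t + k + 1)), (mult ρ : ℝ) :=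
        Finset.sum_le_sum_of_subset_of_nonneg hsub fun _ _ _ => Nat.cast_nonneg _
    _ ≤ ∑ k ∈ Finset.range N, ∑ ρ ∈ S.filter (fun ρ => t + k ≤ ρ.im ∧ ρ.im ≤ t + k + 1),
          (mult ρ : ℝ) := ZC_biUnion _ _ _ fun _ => Nat.cast_nonneg _
    _ ≤ ∑ k ∈ Finset.range N, C * (3 * Real.log t) := by
        refine Finset.sum_le_sum fun k hk => ?_
        have h1 := hw (t + k) (S.filter (fun ρ => t + k ≤ ρ.im ∧ ρ.im ≤ t + k + 1))
          (by positivity) (fun ρ hρ => by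
            obtain ⟨h2, h3⟩ := Finset.mem_filter.1 hρ
            exact ⟨(hS ρ h2).1, (hS ρ h2).2.1, h3.1, h3.2⟩)
        refine h1.trans (mul_le_mul_of_nonneg_left (hlog k hk) hC.le)
    _ = N * (C * (3 * Real.log t)) := by
        rw [Finset.sum_const, Finset.card_range, nsmul_eq_mul]
    _ ≤ 2 * H * (C * (3 * Real.log t)) :=
        mul_le_mul_of_nonneg_right hNH (by positivity)
    _ = _ := by ring

theorem count_upper : ∃ C : ℝ, 0 < C ∧ ∀ t H : ℝ, 2 ≤ t → 1 ≤ H → H ≤ t →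
    count t H ≤ C * H * Real.log t := by
  classical
  obtain ⟨C, hC, hr⟩ := ZC_right
  refine ⟨2 * C, by positivity, fun t H ht hH hHt => ?_⟩
  rw [count_eq (by linarith)]
  set S := zs t H with hSdef
  have hS : ∀ ρ ∈ S, riemannZeta ρ = 0 ∧ t < ρ.im ∧ ρ.im ≤ t + H := fun ρ hρ =>
    (mem_zs (by linarith)).1 hρ
  rw [← Finset.sum_filter_add_sum_filter_not S (fun ρ => 1 / 2 ≤ ρ.re)]
  have h1 : ∑ ρ ∈ S.filter (fun ρ => 1 / 2 ≤ ρ.re), (mult ρ : ℝ) ≤ C * H * Real.log t := by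
    refine hr t H ht hH hHt _ fun ρ hρ => ?_
    obtain ⟨h2, h3⟩ := Finset.mem_filter.1 hρ
    exact ⟨(hS ρ h2).1, h3, (hS ρ h2).2.1, (hS ρ h2).2.2⟩
  have h2 : ∑ ρ ∈ S.filter (fun ρ => ¬ 1 / 2 ≤ ρ.re), (mult ρ : ℝ) ≤ C * H * Real.log t := by
    have hinj : Set.InjOn (fun ρ : ℂ => 1 - (starRingEnd ℂ) ρ)
        (S.filter (fun ρ => ¬ 1 / 2 ≤ ρ.re) : Set ℂ) := by
      intro x _ y _ hxy
      simp only at hxy
      have : (starRingEnd ℂ) x = (starRingEnd ℂ) y := by linear_combination -hxy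
      exact (starRingEnd ℂ).injective this
    have h3 : ∑ ρ ∈ S.filter (fun ρ => ¬ 1 / 2 ≤ ρ.re), (mult ρ : ℝ)
        = ∑ ρ ∈ (S.filter (fun ρ => ¬ 1 / 2 ≤ ρ.re)).image (fun ρ => 1 - (starRingEnd ℂ) ρ),
          (mult ρ : ℝ) := by
      rw [Finset.sum_image hinj]
      refine Finset.sum_congr rfl fun ρ hρ => ?_
      obtain ⟨h4, -⟩ := Finset.mem_filter.1 hρ
      rw [(mult_symm (hS ρ h4).1 (by have := (hS ρ h4).2.1; linarith)).2]
    rw [h3]
    refine hr t H ht hH hHt _ fun ρ hρ => ?_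
    obtain ⟨ρ', hρ', rfl⟩ := Finset.mem_image.1 hρ
    obtain ⟨h4, h5⟩ := Finset.mem_filter.1 hρ'
    have him : ρ'.im ≠ 0 := by have := (hS ρ' h4).2.1; linarith
    refine ⟨(mult_symm (hS ρ' h4).1 him).1, ?_, ?_, ?_⟩
    · simp only [Complex.sub_re, Complex.one_re, Complex.conj_re]
      push Not at h5
      linarith
    · simp only [Complex.sub_im, Complex.one_im, Complex.conj_im]
      linarith [(hS ρ' h4).2.1]
    · simp only [Complex.sub_im, Complex.one_im, Complex.conj_im]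
      linarith [(hS ρ' h4).2.2]
  linarith

end Pool.Agent.helper84.DM
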