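import Pool.Agent.helper18.DM.AW
import Pool.Agent.helper23.DM.FI

/-! # Density hypothesis in the mean: the measure bound -/

set_option autoImplicit false

open Complex Metric MeasureTheory

namespace Pool.Agent.helper84.DM

/-- averaging a nonnegative continuous function over windows -/
theorem AM_avg (f : ℝ → ℝ) (hf : Continuous f) (h0 : ∀ x, 0 ≤ f x) {T H : ℝ} (hT : 0 ≤ T)
    (hH : 0 < H) :
    (Continuous fun t => (1 / H) * ∫ x in t..(t + H), f x) ∧
    ∫ t in T..(2 * T), ((1 / H) * ∫ x in t..(t + H), f x) ≤ ∫ x in T..(2 * T + H), f x := by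
  have hfi : ∀ a b : ℝ, IntervalIntegrable f volume a b := fun a b => hf.intervalIntegrable a b
  set F : ℝ → ℝ := fun u => ∫ x in T..u, f x with hF
  have hFc : Continuous F := intervalIntegral.continuous_primitive hfi T
  have hg : ∀ t, ∫ x in t..(t + H), f x = F (t + H) - F t := by
    intro t
    rw [hF]
    simp only
    rw [intervalIntegral.integral_interval_sub_left (hfi _ _) (hfi _ _)]
  have hmono : ∀ a b : ℝ, a ≤ b → F a ≤ F b := by
    intro a b hab
    have h1 : F b - F a = ∫ x in a..b, f x := by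
      rw [hF]
      simp only
      rw [intervalIntegral.integral_interval_sub_left (hfi _ _) (hfi _ _)]
    have h2 : 0 ≤ ∫ x in a..b, f x := intervalIntegral.integral_nonneg hab fun x _ => h0 x
    linarith
  have hFT : F T = 0 := by rw [hF]; simp
  have hFi : ∀ a b : ℝ, IntervalIntegrable F volume a b := fun a b => hFc.intervalIntegrable a b
  constructor
  · simp only [hg]
    exact continuous_const.mul ((hFc.comp (continuous_id.add continuous_const)).sub hFc)
  · simp only [hg]
    have hFH : Continuous fun x => F (x + H) := hFc.comp (continuous_id.add continuous_const)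
    rw [intervalIntegral.integral_const_mul, intervalIntegral.integral_sub
      (hFH.intervalIntegrable _ _) (hFi _ _)]
    rw [intervalIntegral.integral_comp_add_right (fun u => F u) H]
    have h1 : (∫ x in T + H..2 * T + H, F x) - ∫ x in T..2 * T, F x
        = (∫ x in (2 * T)..(2 * T + H), F x) - ∫ x in T..(T + H), F x := by
      have e1 := intervalIntegral.integral_add_adjacent_intervals (hFi T (T + H))
        (hFi (T + H) (2 * T + H))
      have e2 := intervalIntegral.integral_add_adjacent_intervals (hFi T (2 * T))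
        (hFi (2 * T) (2 * T + H))
      linarith
    rw [h1]
    have h2 : 0 ≤ ∫ x in T..(T + H), F x :=
      intervalIntegral.integral_nonneg (by linarith) fun x hx => by
        rw [← hFT]; exact hmono _ _ hx.1
    have h3 : ∫ x in (2 * T)..(2 * T + H), F x ≤ ∫ _x in (2 * T)..(2 * T + H), F (2 * T + H) :=
      intervalIntegral.integral_mono_on (by linarith) (hFi _ _)
        intervalIntegrable_const fun x hx => hmono _ _ hx.2
    rw [intervalIntegral.integral_const, smul_eq_mul] at h3
    have h4 : (2 * T + H - 2 * T) * F (2 * T + H) = H * F (2 * T + H) := by ring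
    rw [h4] at h3
    calc 1 / H * ((∫ x in (2 * T)..(2 * T + H), F x) - ∫ x in T..(T + H), F x)
        ≤ 1 / H * (H * F (2 * T + H)) :=
          mul_le_mul_of_nonneg_left (by linarith) (by positivity)
      _ = F (2 * T + H) := by field_simp
      _ = _ := rfl

theorem am (ε : ℝ) (hε : 0 < ε) : ∃ H₀ : ℝ, 2 ≤ H₀ ∧ ∀ H : ℝ, H₀ ≤ H → ∃ T₀ : ℝ, 2 ≤ T₀ ∧
    ∀ T y : ℝ, T₀ ≤ T → 0 ≤ y →
      volume {t : ℝ | T ≤ t ∧ t ≤ 2 * T ∧ y * Real.log T ≤ 2 * Real.pi / H * half t H}
        ≤ ENNReal.ofReal (T ^ (1 - 4 * y + ε)) := by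
  obtain ⟨η, H₀, hη, hη1, hH₀, haw⟩ := aw (ε / 16) (by positivity)
  refine ⟨H₀, hH₀, fun H hH => ?_⟩
  have hH2 : 2 ≤ H := hH₀.trans hH
  obtain ⟨T₁, hT₁⟩ := haw H hH
  obtain ⟨C, T₂, hC, hT₂⟩ := psi_int η (ε / 4) H hη hη1 (by positivity) hH2
  set A : ℝ := H ^ 2 + 2 with hA
  set B : ℝ := (C * 2 ^ (ε / 4)) ^ (2 / ε) with hB
  refine ⟨max 2 (max A (max T₁ (max T₂ B))), le_max_left _ _, fun T y hT hy => ?_⟩
  simp only [max_le_iff] at hT
  obtain ⟨hT2, hTA, hTT₁, hTT₂, hTB⟩ := hT
  have hTpos : 0 < T := by linarith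
  set φ : ℝ → ℝ := fun t => 1 + Psi (1 / 2 + η) 1 (H ^ 2) t with hφ
  have h1H : (1 : ℝ) < H ^ 2 := by nlinarith
  have hφ0 : ∀ t, 0 ≤ φ t := fun t => by
    have := psi_nonneg (α := 1 / 2 + η) (t := t) one_pos h1H
    simp only [hφ]
    linarith
  set f : ℝ → ℝ := fun t => φ (max t A) with hf
  have hfc : Continuous f := by
    rw [continuous_iff_continuousAt]
    intro t
    have h1 : ContinuousAt φ (max t A) :=
      continuousAt_const.add (psi_cont one_pos h1H (le_max_right _ _))
    exact ContinuousAt.comp (f := fun t : ℝ => max t A) h1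
      (continuous_id.max continuous_const).continuousAt
  have hf0 : ∀ t, 0 ≤ f t := fun t => hφ0 _
  have hfeq : ∀ t, A ≤ t → f t = φ t := fun t ht => by
    simp only [hf, max_eq_left ht]
  have hint : ∀ a b : ℝ, A ≤ a → a ≤ b → ∫ t in a..b, f t = ∫ t in a..b, φ t := by
    intro a b ha hab
    refine intervalIntegral.integral_congr fun t ht => ?_
    rw [Set.uIcc_of_le hab] at ht
    exact hfeq t (ha.trans ht.1)
  set g : ℝ → ℝ := fun t => (1 / H) * ∫ x in t..(t + H), f x with hg
  obtain ⟨hgc, hgi⟩ := AM_avg f hfc hf0 hTpos.le (by linarith : 0 < H)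
  have hgb : ∫ t in T..(2 * T), g t ≤ C * T ^ (1 + ε / 4) := by
    refine hgi.trans ?_
    rw [hint T (2 * T + H) hTA (by linarith)]
    exact hT₂ T hTT₂
  set c : ℝ := Real.exp (4 * (y * Real.log T - ε / 16 * Real.log (2 * T))) with hc
  have hcpos : 0 < c := Real.exp_pos _
  have hsub : {t : ℝ | T ≤ t ∧ t ≤ 2 * T ∧ y * Real.log T ≤ 2 * Real.pi / H * half t H}
      ⊆ {t : ℝ | c ≤ g t} ∩ Set.Icc T (2 * T) := by
    rintro t ⟨ht1, ht2, ht3⟩
    refine ⟨?_, ht1, ht2⟩
    have h1 := hT₁ t (hTT₁.trans ht1)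
    have h2 : g t = (1 / H) * ∫ t' in t..(t + H), (1 + Psi (1 / 2 + η) 1 (H ^ 2) t') := by
      simp only [hg]
      rw [hint t (t + H) (hTA.trans ht1) (by linarith)]
    show c ≤ g t
    rw [h2]
    refine le_trans ?_ h1
    rw [hc]
    refine Real.exp_le_exp.2 ?_
    have h3 : Real.log t ≤ Real.log (2 * T) := Real.log_le_log (by linarith) ht2
    have h4 : ε / 16 * Real.log t ≤ ε / 16 * Real.log (2 * T) :=
      mul_le_mul_of_nonneg_left h3 (by positivity)
    linarith
  have hmark : c * (volume.restrict (Set.Icc T (2 * T))).real {t : ℝ | c ≤ g t}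
      ≤ C * T ^ (1 + ε / 4) := by
    have h1 := mul_meas_ge_le_integral_of_nonneg (μ := volume.restrict (Set.Icc T (2 * T)))
      (f := g) (Filter.Eventually.of_forall fun t => by
        simp only [hg, Pi.zero_apply]
        exact mul_nonneg (by positivity)
          (intervalIntegral.integral_nonneg (by linarith) fun x _ => hf0 x))
      (hgc.continuousOn.integrableOn_compact isCompact_Icc) c
    refine h1.trans ?_
    rw [MeasureTheory.integral_Icc_eq_integral_Ioc,
      ← intervalIntegral.integral_of_le (by linarith)]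
    exact hgb
  have hreal : (volume.restrict (Set.Icc T (2 * T))).real {t : ℝ | c ≤ g t}
      ≤ T ^ (1 - 4 * y + ε) := by
    have h1 : (volume.restrict (Set.Icc T (2 * T))).real {t : ℝ | c ≤ g t}
        ≤ C * T ^ (1 + ε / 4) / c := by
      rw [le_div_iff₀ hcpos, mul_comm]
      exact hmark
    refine h1.trans ?_
    rw [div_le_iff₀ hcpos]
    have h2 : c = T ^ (4 * y) * (2 * T) ^ (-(ε / 4)) := by
      rw [hc, Real.rpow_def_of_pos hTpos, Real.rpow_def_of_pos (by linarith), ← Real.exp_add]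
      congr 1
      ring
    have h3 : T ^ (1 - 4 * y + ε) * (T ^ (4 * y) * (2 * T) ^ (-(ε / 4)))
        = T ^ (1 + ε / 4) * T ^ (ε / 2) * (2 : ℝ) ^ (-(ε / 4)) := by
      rw [Real.mul_rpow (by norm_num) hTpos.le, mul_comm ((2 : ℝ) ^ (-(ε / 4))), ← mul_assoc,
        ← mul_assoc, ← Real.rpow_add hTpos, ← Real.rpow_add hTpos, ← Real.rpow_add hTpos]
      congr 2
      ring
    rw [h2, h3]
    have h4 : C * 2 ^ (ε / 4) ≤ T ^ (ε / 2) := by
      calc C * 2 ^ (ε / 4) = B ^ (ε / 2) := by
            rw [hB, ← Real.rpow_mul (by positivity)]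
            have : 2 / ε * (ε / 2) = 1 := by field_simp
            rw [this, Real.rpow_one]
        _ ≤ T ^ (ε / 2) := Real.rpow_le_rpow (by positivity) hTB (by positivity)
    have h5 : C ≤ T ^ (ε / 2) * (2 : ℝ) ^ (-(ε / 4)) := by
      rw [Real.rpow_neg (by norm_num), ← div_eq_mul_inv, le_div_iff₀ (by positivity)]
      exact h4
    calc C * T ^ (1 + ε / 4) ≤ (T ^ (ε / 2) * (2 : ℝ) ^ (-(ε / 4))) * T ^ (1 + ε / 4) :=
          mul_le_mul_of_nonneg_right h5 (by positivity)
      _ = _ := by ring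
  calc volume {t : ℝ | T ≤ t ∧ t ≤ 2 * T ∧ y * Real.log T ≤ 2 * Real.pi / H * half t H}
      ≤ volume ({t : ℝ | c ≤ g t} ∩ Set.Icc T (2 * T)) := measure_mono hsub
    _ = (volume.restrict (Set.Icc T (2 * T))) {t : ℝ | c ≤ g t} :=
        (Measure.restrict_apply' measurableSet_Icc).symm
    _ = ENNReal.ofReal ((volume.restrict (Set.Icc T (2 * T))).real {t : ℝ | c ≤ g t}) := by
        rw [ofReal_measureReal]
    _ ≤ ENNReal.ofReal (T ^ (1 - 4 * y + ε)) := ENNReal.ofReal_le_ofReal hreal

end Pool.Agent.helper84.DM
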